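import Mathlib

/-!
# A weakly support-preserving convolution endomorphism that is not a (limit of) tilting maps

Take a nonarchimedean valuation `v` of the field of real numbers with `v 2 < 1`, and send a
finitely supported probability measure `μ` on `ℕ` to the point mass at the least `k` for which
`v (μ k)` is maximal. This is an endomorphism by the argument of Gauss's lemma.
-/

set_option autoImplicit false

namespace Pool.Agent.Results.MP_aec1ed_pr.ValuationEndo

/-- Finitely supported probability measures on `ℕ`, written as functions. -/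
structure FinProb where
  /-- the weights -/
  toFun : ℕ → ℝ
  finite : (Function.support toFun).Finite
  nonneg : ∀ n, 0 ≤ toFun n
  sum_eq_one : ∑ᶠ n, toFun n = 1

/-- `ρ` is the convolution of `μ` and `ν`. -/
def IsConv (ρ μ ν : FinProb) : Prop :=
  ∀ n, ρ.toFun n = ∑ p ∈ Finset.HasAntidiagonal.antidiagonal n, μ.toFun p.1 * ν.toFun p.2

/-- `Φ` is an endomorphism of the convolution semigroup. -/
def IsEndo (Φ : FinProb → FinProb) : Prop :=
  ∀ μ ν ρ, IsConv ρ μ ν → IsConv (Φ ρ) (Φ μ) (Φ ν)

/-- `Φ` is weakly support-preserving. -/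
def WeaklySupportPreserving (Φ : FinProb → FinProb) : Prop :=
  ∀ μ n, (Φ μ).toFun n ≠ 0 → μ.toFun n ≠ 0

/-- `Φ` is the tilting map with parameter `β`. -/
def IsTilt (β : ℝ) (Φ : FinProb → FinProb) : Prop :=
  ∀ μ n, (Φ μ).toFun n =
    μ.toFun n * Real.exp (-β * n) / ∑ᶠ m : ℕ, μ.toFun m * Real.exp (-β * m)

/-- `Φ` sends every measure to the point mass at the largest point of its support. -/
def IsMaxMap (Φ : FinProb → FinProb) : Prop :=
  ∀ μ n, IsGreatest (Function.support μ.toFun) n → (Φ μ).toFun = Pi.single n 1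

/-- `Φ` sends every measure to the point mass at the least point of its support. -/
def IsMinMap (Φ : FinProb → FinProb) : Prop :=
  ∀ μ n, IsLeast (Function.support μ.toFun) n → (Φ μ).toFun = Pi.single n 1

/-! ### The valuation -/

theorem exists_val : ∃ B : ValuationSubring ℝ, B.valuation 2 < 1 := by
  let A : Subring ℝ := (Int.castRingHom ℝ).range
  let two : A := ⟨2, ⟨2, by simp⟩⟩
  have hI : Ideal.span {two} ≠ ⊤ := by
    rw [Ne, Ideal.span_singleton_eq_top]
    intro h
    obtain ⟨⟨b, hb⟩, h1⟩ := isUnit_iff_exists_inv.1 h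
    obtain ⟨k, rfl⟩ := hb
    have h2 : (2 : ℝ) * ((Int.castRingHom ℝ) k) = 1 := congrArg (fun x : A => (x : ℝ)) h1
    have h3 : (2 : ℤ) * k = 1 := by
      have : ((2 * k : ℤ) : ℝ) = ((1 : ℤ) : ℝ) := by push_cast; exact h2
      exact_mod_cast this
    omega
  obtain ⟨B, _, hB⟩ := Ideal.image_subset_nonunits_valuationSubring _ hI
  refine ⟨B, ?_⟩
  have h2 : (2 : ℝ) ∈ B.nonunits := hB ⟨two, Ideal.subset_span rfl, rfl⟩
  exact (ValuationSubring.mem_nonunits_iff B).1 h2

variable {Γ₀ : Type*} [LinearOrderedCommGroupWithZero Γ₀] (v : Valuation ℝ Γ₀)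

/-- `k` is the least index at which the valuation of the weights is maximal. -/
def IsIdx (f : ℕ → ℝ) (k : ℕ) : Prop :=
  f k ≠ 0 ∧ (∀ n, v (f n) ≤ v (f k)) ∧ ∀ n, n < k → v (f n) < v (f k)

variable {v}

theorem IsIdx.unique {f : ℕ → ℝ} {k l : ℕ} (hk : IsIdx v f k) (hl : IsIdx v f l) : k = l := by
  rcases lt_trichotomy k l with h | h | h
  · exact absurd (hk.2.1 l) (not_le.2 (hl.2.2 k h))
  · exact h
  · exact absurd (hl.2.1 k) (not_le.2 (hk.2.2 l h))

variable (v)

theorem exists_idx (μ : FinProb) : ∃ k, IsIdx v μ.toFun k := by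
  have hne : μ.finite.toFinset.Nonempty := by
    by_contra h
    rw [Finset.not_nonempty_iff_eq_empty] at h
    have h1 : ∀ n, μ.toFun n = 0 := by
      intro n
      by_contra hn
      have : n ∈ μ.finite.toFinset := by
        rw [Set.Finite.mem_toFinset]; exact hn
      rw [h] at this
      exact absurd this (Finset.notMem_empty n)
    have h2 := μ.sum_eq_one
    simp [h1] at h2
  obtain ⟨m, hm, hmax⟩ := Finset.exists_max_image μ.finite.toFinset (fun n => v (μ.toFun n)) hne
  have hm0 : μ.toFun m ≠ 0 := by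
    rw [Set.Finite.mem_toFinset] at hm; exact hm
  have hall : ∀ n, v (μ.toFun n) ≤ v (μ.toFun m) := by
    intro n
    by_cases hn : μ.toFun n = 0
    · rw [hn, map_zero]; exact zero_le
    · exact hmax n (by rw [Set.Finite.mem_toFinset]; exact hn)
  classical
  have hex : ∃ k, v (μ.toFun k) = v (μ.toFun m) := ⟨m, rfl⟩
  refine ⟨Nat.find hex, ?_, ?_, ?_⟩
  · intro h
    have h1 := Nat.find_spec hex
    rw [h, map_zero, eq_comm, Valuation.zero_iff] at h1
    exact hm0 h1
  · intro n
    rw [Nat.find_spec hex]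
    exact hall n
  · intro n hn
    rw [Nat.find_spec hex]
    exact lt_of_le_of_ne (hall n) (Nat.find_min hex hn)

/-- The argument of Gauss's lemma. -/
theorem idx_conv {μ ν ρ : FinProb} (h : IsConv ρ μ ν) {k l : ℕ} (hk : IsIdx v μ.toFun k)
    (hl : IsIdx v ν.toFun l) : IsIdx v ρ.toFun (k + l) := by
  have hk0 : 0 < v (μ.toFun k) := by
    rw [zero_lt_iff, Ne, Valuation.zero_iff]; exact hk.1
  have hl0 : 0 < v (ν.toFun l) := by
    rw [zero_lt_iff, Ne, Valuation.zero_iff]; exact hl.1
  have hkl0 : v (μ.toFun k) * v (ν.toFun l) ≠ 0 := mul_ne_zero hk0.ne' hl0.ne'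
  have hle : ∀ i j, v (μ.toFun i * ν.toFun j) ≤ v (μ.toFun k) * v (ν.toFun l) := by
    intro i j
    rw [map_mul]
    exact mul_le_mul' (hk.2.1 i) (hl.2.1 j)
  have hlt : ∀ i j, i < k ∨ j < l → v (μ.toFun i * ν.toFun j) < v (μ.toFun k) * v (ν.toFun l) := by
    intro i j hij
    rw [map_mul]
    rcases hij with h1 | h1
    · calc v (μ.toFun i) * v (ν.toFun j) ≤ v (μ.toFun i) * v (ν.toFun l) :=
            mul_le_mul' le_rfl (hl.2.1 j)
        _ < v (μ.toFun k) * v (ν.toFun l) := mul_lt_mul_of_pos_right (hk.2.2 i h1) hl0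
    · calc v (μ.toFun i) * v (ν.toFun j) ≤ v (μ.toFun k) * v (ν.toFun j) :=
            mul_le_mul' (hk.2.1 i) le_rfl
        _ < v (μ.toFun k) * v (ν.toFun l) := mul_lt_mul_of_pos_left (hl.2.2 j h1) hk0
  have hval : v (ρ.toFun (k + l)) = v (μ.toFun k) * v (ν.toFun l) := by
    rw [h, ← Finset.add_sum_erase _ _ (show (k, l) ∈ Finset.HasAntidiagonal.antidiagonal (k + l) by simp),
      Valuation.map_add_eq_of_lt_left, map_mul]
    rw [map_mul]
    apply Valuation.map_sum_lt _ hkl0
    rintro ⟨i, j⟩ hij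
    rw [Finset.mem_erase, Finset.HasAntidiagonal.mem_antidiagonal] at hij
    apply hlt
    by_contra hcon
    push Not at hcon
    apply hij.1
    have h1 : i = k := by omega
    have h2 : j = l := by omega
    rw [h1, h2]
  refine ⟨?_, ?_, ?_⟩
  · intro h0
    rw [h0, map_zero] at hval
    exact hkl0 hval.symm
  · intro n
    rw [hval, h]
    apply Valuation.map_sum_le
    rintro ⟨i, j⟩ _
    exact hle i j
  · intro n hn
    rw [hval, h]
    apply Valuation.map_sum_lt _ hkl0
    rintro ⟨i, j⟩ hij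
    rw [Finset.HasAntidiagonal.mem_antidiagonal] at hij
    apply hlt
    simp only at hij
    omega

/-! ### The endomorphism -/

/-- point masses -/
noncomputable def delta (k : ℕ) : FinProb where
  toFun := Pi.single k 1
  finite := (Set.finite_singleton k).subset fun n hn => by
    by_contra h
    exact hn (Pi.single_eq_of_ne h 1)
  nonneg n := by
    by_cases h : n = k
    · rw [h, Pi.single_eq_same]; exact zero_le_one
    · rw [Pi.single_eq_of_ne h]
  sum_eq_one := by
    rw [finsum_eq_single _ k fun n hn => Pi.single_eq_of_ne hn 1, Pi.single_eq_same]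

theorem delta_self (k : ℕ) : (delta k).toFun k = 1 := by
  show (Pi.single k 1 : ℕ → ℝ) k = 1
  rw [Pi.single_eq_same]

theorem delta_ne (k n : ℕ) (h : n ≠ k) : (delta k).toFun n = 0 := by
  show (Pi.single k 1 : ℕ → ℝ) n = 0
  rw [Pi.single_eq_of_ne h]

/-- the endomorphism -/
noncomputable def Phi (μ : FinProb) : FinProb := delta (Classical.choose (exists_idx v μ))

theorem Phi_eq (μ : FinProb) (k : ℕ) (hk : IsIdx v μ.toFun k) : Phi v μ = delta k := by
  unfold Phi
  rw [(Classical.choose_spec (exists_idx v μ)).unique hk]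

theorem Phi_endo : IsEndo (Phi v) := by
  intro μ ν ρ h
  obtain ⟨k, hk⟩ := exists_idx v μ
  obtain ⟨l, hl⟩ := exists_idx v ν
  rw [Phi_eq v μ k hk, Phi_eq v ν l hl, Phi_eq v ρ (k + l) (idx_conv v h hk hl)]
  intro n
  show (Pi.single (k + l) 1 : ℕ → ℝ) n = ∑ p ∈ Finset.HasAntidiagonal.antidiagonal n,
    (Pi.single k 1 : ℕ → ℝ) p.1 * (Pi.single l 1 : ℕ → ℝ) p.2
  by_cases hn : n = k + l
  · subst hn
    rw [Pi.single_eq_same, Finset.sum_eq_single (k, l)]
    · rw [Pi.single_eq_same, Pi.single_eq_same, one_mul]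
    · rintro ⟨i, j⟩ hij hne
      rw [Finset.HasAntidiagonal.mem_antidiagonal] at hij
      simp only at hij
      by_cases hi : i = k
      · have hj : j ≠ l := by
          rintro rfl
          exact hne (by rw [hi])
        rw [Pi.single_eq_of_ne hj, mul_zero]
      · rw [Pi.single_eq_of_ne hi, zero_mul]
    · intro h0
      simp at h0
  · rw [Pi.single_eq_of_ne hn]
    symm
    apply Finset.sum_eq_zero
    rintro ⟨i, j⟩ hij
    rw [Finset.HasAntidiagonal.mem_antidiagonal] at hij
    simp only at hij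
    by_cases hi : i = k
    · have hj : j ≠ l := by
        rintro rfl
        exact hn (by rw [← hij, hi])
      rw [Pi.single_eq_of_ne hj, mul_zero]
    · rw [Pi.single_eq_of_ne hi, zero_mul]

theorem Phi_wsp : WeaklySupportPreserving (Phi v) := by
  intro μ n hn
  obtain ⟨k, hk⟩ := exists_idx v μ
  rw [Phi_eq v μ k hk] at hn
  by_cases h : n = k
  · rw [h]; exact hk.1
  · exact absurd (delta_ne k n h) hn

/-- two-point measures on `{0, 1}` -/
noncomputable def two (t : ℝ) (h0 : 0 < t) (h1 : t < 1) : FinProb where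
  toFun n := if n = 0 then 1 - t else if n = 1 then t else 0
  finite := ((Set.finite_singleton 0).union (Set.finite_singleton 1)).subset fun n hn => by
    by_contra h
    simp only [Set.mem_union, Set.mem_singleton_iff, not_or] at h
    apply hn
    simp [h.1, h.2]
  nonneg n := by
    split_ifs <;> linarith
  sum_eq_one := by
    rw [finsum_eq_sum_of_support_subset (s := {0, 1})]
    · simp
    · intro n hn
      by_contra h
      simp only [Finset.coe_insert, Finset.coe_singleton, Set.mem_insert_iff,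
        Set.mem_singleton_iff, not_or] at h
      apply hn
      simp [h.1, h.2]

theorem result : ∃ Φ : FinProb → FinProb, IsEndo Φ ∧ WeaklySupportPreserving Φ ∧
    (¬ ∃ β : ℝ, IsTilt β Φ) ∧ ¬ IsMaxMap Φ ∧ ¬ IsMinMap Φ := by
  obtain ⟨B, hB⟩ := exists_val
  set v := B.valuation with hv
  have hv2 : v 2 ≠ 0 := by rw [Ne, Valuation.zero_iff]; norm_num
  -- the measure with weights `1/2, 1/2` is sent to the point mass at `0`
  have hA : IsIdx v (two (1 / 2) (by norm_num) (by norm_num)).toFun 0 := by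
    refine ⟨?_, ?_, fun n hn => absurd hn (Nat.not_lt_zero n)⟩
    · show (1 : ℝ) - 1 / 2 ≠ 0
      norm_num
    · intro n
      show v (if n = 0 then (1 : ℝ) - 1 / 2 else if n = 1 then 1 / 2 else 0) ≤ v ((1 : ℝ) - 1 / 2)
      have e : (1 : ℝ) - 1 / 2 = 1 / 2 := by norm_num
      rw [e]
      split_ifs
      · exact le_rfl
      · exact le_rfl
      · rw [map_zero]; exact zero_le
  -- the measure with weights `2/3, 1/3` is sent to the point mass at `1`
  have hC : IsIdx v (two (1 / 3) (by norm_num) (by norm_num)).toFun 1 := by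
    have h3 : v (1 / 3 : ℝ) ≠ 0 := by rw [Ne, Valuation.zero_iff]; norm_num
    have hlt : v ((1 : ℝ) - 1 / 3) < v (1 / 3 : ℝ) := by
      have e : (1 : ℝ) - 1 / 3 = 2 * (1 / 3) := by norm_num
      rw [e, map_mul]
      calc v 2 * v (1 / 3 : ℝ) < 1 * v (1 / 3 : ℝ) :=
            mul_lt_mul_of_pos_right hB (zero_lt_iff.2 h3)
        _ = v (1 / 3 : ℝ) := one_mul _
    refine ⟨?_, ?_, ?_⟩
    · show (1 / 3 : ℝ) ≠ 0
      norm_num
    · intro n
      show v (if n = 0 then (1 : ℝ) - 1 / 3 else if n = 1 then 1 / 3 else 0) ≤ v (1 / 3 : ℝ)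
      split_ifs
      · exact hlt.le
      · exact le_rfl
      · rw [map_zero]; exact zero_le
    · intro n hn
      have : n = 0 := by omega
      subst this
      exact hlt
  have hA' := Phi_eq v _ 0 hA
  have hC' := Phi_eq v _ 1 hC
  refine ⟨Phi v, Phi_endo v, Phi_wsp v, ?_, ?_, ?_⟩
  · rintro ⟨β, hβ⟩
    set μ := two (1 / 2) (by norm_num) (by norm_num) with hμ
    have h1 := hβ μ 1
    rw [hA'] at h1
    have h2 : (delta 0).toFun 1 = 0 := delta_ne 0 1 one_ne_zero
    have h3 := hβ μ 0
    rw [hA'] at h3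
    have h4 : (delta 0).toFun 0 = 1 := delta_self 0
    rw [h4] at h3
    rw [h2] at h1
    have hS : ∑ᶠ m : ℕ, μ.toFun m * Real.exp (-β * m) ≠ 0 := by
      intro h0
      rw [h0, div_zero] at h3
      exact one_ne_zero h3
    have h5 : μ.toFun 1 * Real.exp (-β * (1 : ℕ)) ≠ 0 :=
      mul_ne_zero (show (1 / 2 : ℝ) ≠ 0 by norm_num) (Real.exp_pos _).ne'
    exact (div_ne_zero h5 hS) h1.symm
  · intro hmax
    have h1 : IsGreatest (Function.support (two (1 / 2) (by norm_num) (by norm_num)).toFun) 1 := by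
      constructor
      · show (1 / 2 : ℝ) ≠ 0
        norm_num
      · intro n hn
        by_contra h
        have h2 : n ≠ 0 := by omega
        have h3 : n ≠ 1 := by omega
        apply hn
        show (if n = 0 then (1 : ℝ) - 1 / 2 else if n = 1 then 1 / 2 else 0) = 0
        rw [if_neg h2, if_neg h3]
    have h2 := hmax _ 1 h1
    rw [hA'] at h2
    have h3 : (delta 0).toFun 0 = (Pi.single 1 1 : ℕ → ℝ) 0 := by rw [h2]
    have h4 : (delta 0).toFun 0 = 1 := delta_self 0
    rw [h4, Pi.single_eq_of_ne zero_ne_one] at h3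
    exact one_ne_zero h3
  · intro hmin
    have h1 : IsLeast (Function.support (two (1 / 3) (by norm_num) (by norm_num)).toFun) 0 := by
      constructor
      · show (1 : ℝ) - 1 / 3 ≠ 0
        norm_num
      · intro n _
        exact Nat.zero_le n
    have h2 := hmin _ 0 h1
    rw [hC'] at h2
    have h3 : (delta 1).toFun 1 = (Pi.single 0 1 : ℕ → ℝ) 1 := by rw [h2]
    have h4 : (delta 1).toFun 1 = 1 := delta_self 1
    rw [h4, Pi.single_eq_of_ne one_ne_zero] at h3
    exact one_ne_zero h3

end Pool.Agent.Results.MP_aec1ed_pr.ValuationEndo
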